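import Pool.Agent.V1146.Car.Main

/-!
Polynomial rings over a perfect field are strongly `F`-regular and `F`-finite.
-/

open Polynomial

namespace Pool.Agent.V1146.Car

universe u

section SFR

/-- every nonzero element is split off by some Cartier map -/
def HasSplit (p : ℕ) (B : Type u) [CommRing B] : Prop :=
  ∀ c : B, c ≠ 0 → ∃ e : ℕ, 1 ≤ e ∧ ∃ ψ : B →+ B, IsCartier p e ψ ∧ ψ c = 1

lemma hasSplit_field (p : ℕ) [Fact p.Prime] (k : Type u) [Field k] [CharP k p] [PerfectRing k p] :
    HasSplit p k := by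
  intro c hc
  refine ⟨1, le_rfl, ((frobeniusEquiv k p).symm : k ≃+* k).toAddEquiv.toAddMonoidHom.comp
    (AddMonoidHom.mulLeft c⁻¹), ?_, ?_⟩
  · intro r s
    change (frobeniusEquiv k p).symm (c⁻¹ * (r ^ p ^ 1 * s)) =
      r * (frobeniusEquiv k p).symm (c⁻¹ * s)
    have : c⁻¹ * (r ^ p ^ 1 * s) = r ^ p * (c⁻¹ * s) := by rw [pow_one]; ring
    rw [this, map_mul, frobeniusEquiv_symm_pow]
  · change (frobeniusEquiv k p).symm (c⁻¹ * c) = 1
    rw [inv_mul_cancel₀ hc, map_one]

variable {B : Type u} [CommRing B]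

/-- the Cartier map on `B[X]` given by one on `B` and the exponent `n` -/
noncomputable def tauFun (q n : ℕ) (σ : B →+ B) (f : B[X]) : B[X] :=
  ∑ m ∈ Finset.range (f.natDegree + 1), monomial m (σ (f.coeff (n + q * m)))

lemma coeff_tauFun (q n : ℕ) (hq : 0 < q) (σ : B →+ B) (f : B[X]) (m : ℕ) :
    (tauFun q n σ f).coeff m = σ (f.coeff (n + q * m)) := by
  rw [tauFun, finset_sum_coeff]
  simp only [coeff_monomial]
  rw [Finset.sum_ite_eq']
  split_ifs with h
  · rfl
  · rw [Finset.mem_range] at h
    rw [coeff_eq_zero_of_natDegree_lt, map_zero]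
    have : m ≤ q * m := Nat.le_mul_of_pos_left m hq
    omega

/-- the Cartier map on `B[X]` given by one on `B` and the exponent `n` -/
noncomputable def tau (q n : ℕ) (hq : 0 < q) (σ : B →+ B) : B[X] →+ B[X] where
  toFun := tauFun q n σ
  map_zero' := by
    ext m
    rw [coeff_tauFun q n hq, coeff_zero, coeff_zero, map_zero]
  map_add' := by
    intro f g
    ext m
    rw [coeff_add, coeff_tauFun q n hq, coeff_tauFun q n hq, coeff_tauFun q n hq, coeff_add,
      map_add]

lemma coeff_tau (q n : ℕ) (hq : 0 < q) (σ : B →+ B) (f : B[X]) (m : ℕ) :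
    (tau q n hq σ f).coeff m = σ (f.coeff (n + q * m)) := coeff_tauFun q n hq σ f m

lemma tau_monomial (q n : ℕ) (hq : 0 < q) (hn : n < q) (σ : B →+ B) (N : ℕ) (b : B) :
    tau q n hq σ (monomial N b) = if N % q = n then monomial (N / q) (σ b) else 0 := by
  ext m
  rw [coeff_tau, coeff_monomial]
  by_cases h : N = n + q * m
  · have h1 : N % q = n := by rw [h, Nat.add_mul_mod_self_left, Nat.mod_eq_of_lt hn]
    have h2 : N / q = m := by
      rw [h, Nat.add_mul_div_left _ _ hq, Nat.div_eq_of_lt hn, zero_add]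
    rw [if_pos h, if_pos h1, h2, coeff_monomial, if_pos rfl]
  · rw [if_neg h, map_zero]
    split_ifs with h1
    · rw [coeff_monomial, if_neg]
      intro h2
      apply h
      rw [← h1, ← h2, Nat.mod_add_div]
    · rw [coeff_zero]

lemma tau_cartier (p : ℕ) [Fact p.Prime] [CharP B p] (e n : ℕ) (hq : 0 < p ^ e) (hn : n < p ^ e)
    (σ : B →+ B) (hσ : IsCartier p e σ) : IsCartier p e (tau (p ^ e) n hq σ) := by
  intro g f
  induction g using Polynomial.induction_on' with
  | add g h hg hh =>
    rw [add_pow_char_pow, add_mul, map_add, hg, hh, add_mul]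
  | monomial i b =>
    induction f using Polynomial.induction_on' with
    | add g h hg hh => rw [mul_add, map_add, hg, hh, map_add, mul_add]
    | monomial j c =>
      rw [monomial_pow, monomial_mul_monomial, tau_monomial _ _ _ hn, tau_monomial _ _ _ hn, hσ,
        mul_comm i, Nat.mul_add_mod]
      split_ifs with h
      · rw [monomial_mul_monomial, Nat.mul_add_div hq]
      · rw [mul_zero]

lemma cartier_comp (p : ℕ) {e f : ℕ} {φ ψ : B →+ B} (hφ : IsCartier p e φ) (hψ : IsCartier p f ψ) :
    IsCartier p (f + e) (ψ.comp φ) := by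
  intro r s
  rw [AddMonoidHom.comp_apply, AddMonoidHom.comp_apply, pow_add, pow_mul, hφ, hψ]

lemma hasSplit_poly (p : ℕ) [Fact p.Prime] [CharP B p] (hB : HasSplit p B) : HasSplit p B[X] := by
  have h2p : 2 ≤ p := Nat.Prime.two_le Fact.out
  intro c hc
  obtain ⟨n, hn⟩ : ∃ n, n = c.natDegree := ⟨_, rfl⟩
  induction n using Nat.strong_induction_on generalizing c with
  | _ n ih =>
    obtain ⟨e, he, σ, hσ, hσ1⟩ := hB c.leadingCoeff (leadingCoeff_ne_zero.mpr hc)
    have hq : 0 < p ^ e := Nat.pow_pos (by omega)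
    have hq2 : 2 ≤ p ^ e := by
      calc 2 ≤ p := h2p
        _ = p ^ 1 := (pow_one p).symm
        _ ≤ p ^ e := Nat.pow_le_pow_right (by omega) he
    have hmod : n % p ^ e < p ^ e := Nat.mod_lt _ hq
    have hcart := tau_cartier p e (n % p ^ e) hq hmod σ hσ
    have hco : (tau (p ^ e) (n % p ^ e) hq σ c).coeff (n / p ^ e) = 1 := by
      rw [coeff_tau, Nat.mod_add_div, hn, coeff_natDegree, hσ1]
    by_cases hn0 : n = 0
    · refine ⟨e, he, _, hcart, ?_⟩
      have h1 : c = monomial 0 (c.coeff 0) := by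
        rw [monomial_zero_left]
        exact eq_C_of_natDegree_eq_zero (by omega)
      rw [h1, tau_monomial _ _ _ hmod, hn0, if_pos rfl, Nat.zero_div, monomial_zero_left]
      have h2 : c.coeff 0 = c.leadingCoeff := by rw [leadingCoeff, ← hn, hn0]
      rw [h2, hσ1, C_1]
    · have hne : tau (p ^ e) (n % p ^ e) hq σ c ≠ 0 := by
        intro h0
        rw [h0, coeff_zero] at hco
        have : Subsingleton B := subsingleton_of_zero_eq_one hco
        exact hc (Subsingleton.elim _ _)
      have hdeg : (tau (p ^ e) (n % p ^ e) hq σ c).natDegree < n := by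
        refine lt_of_le_of_lt (b := n / p ^ e) ?_ (Nat.div_lt_self (by omega) (by omega))
        rw [natDegree_le_iff_coeff_eq_zero]
        intro N hN
        rw [coeff_tau, coeff_eq_zero_of_natDegree_lt, map_zero]
        rw [← hn]
        have h3 := Nat.mod_add_div n (p ^ e)
        have h4 : p ^ e * (n / p ^ e) < p ^ e * N := Nat.mul_lt_mul_of_pos_left hN hq
        omega
      obtain ⟨f, hf, ψ, hψ, hψ1⟩ := ih _ hdeg _ hne rfl
      exact ⟨f + e, by omega, _, cartier_comp p hcart hψ, hψ1⟩

end SFR

section FFin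

variable (p : ℕ) [Fact p.Prime]

lemma frob_finite_field (k : Type u) [Field k] [CharP k p] [PerfectRing k p] :
    (frobenius k p).Finite :=
  RingHom.Finite.of_surjective _ (bijective_frobenius k p).2

end FFin

/-- if `A`, `B` are the same ring with the action through `f` -/
lemma finite_iff_exists {A B : Type u} [CommRing A] [CommRing B] (f : A →+* B) :
    f.Finite ↔ ∃ s : Finset B, ∀ M : AddSubgroup B, (∀ t ∈ s, t ∈ M) →
      (∀ (a : A) (b : B), b ∈ M → f a * b ∈ M) → M = ⊤ := by
  letI := f.toAlgebra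
  have h1 : f.Finite ↔ Module.Finite A B := Iff.rfl
  rw [h1]
  constructor
  · rintro ⟨⟨s, hs⟩⟩
    refine ⟨s, ?_⟩
    intro M hM hM2
    rw [eq_top_iff]
    intro b _
    have hb : b ∈ Submodule.span A (s : Set B) := by rw [hs]; trivial
    induction hb using Submodule.span_induction with
    | mem t ht => exact hM t ht
    | zero => exact M.zero_mem
    | add a b _ _ ha hb => exact M.add_mem (ha trivial) (hb trivial)
    | smul a b _ hb => exact hM2 a b (hb trivial)
  · rintro ⟨s, hs⟩
    refine ⟨⟨s, ?_⟩⟩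
    have := hs (Submodule.span A (s : Set B)).toAddSubgroup
      (fun t ht => Submodule.subset_span ht)
      (fun a b hb => (Submodule.span A (s : Set B)).smul_mem a hb)
    rw [eq_top_iff]
    intro b _
    have hb : b ∈ (Submodule.span A (s : Set B)).toAddSubgroup := by rw [this]; trivial
    exact hb

lemma frob_finite_poly (p : ℕ) [Fact p.Prime] (B : Type u) [CommRing B] [CharP B p]
    (hB : (frobenius B p).Finite) : (frobenius B[X] p).Finite := by
  classical
  have h2p : 2 ≤ p := Nat.Prime.two_le Fact.out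
  rw [finite_iff_exists] at hB ⊢
  obtain ⟨s, hs⟩ := hB
  refine ⟨(s ×ˢ Finset.range p).image fun x => C x.1 * X ^ x.2, ?_⟩
  intro M hM hM2
  have key : ∀ (b : B) (n : ℕ), C b * X ^ n ∈ M := by
    intro b n
    let N : AddSubgroup B := M.comap
      (((AddMonoidHom.mulRight (X ^ n : B[X])).comp (C : B →+* B[X]).toAddMonoidHom))
    have hN : ∀ b : B, b ∈ N ↔ C b * X ^ n ∈ M := fun b => Iff.rfl
    have h1 := hs N (by
      intro t ht
      rw [hN]
      have h2 : C t * X ^ n = (X ^ (n / p)) ^ p * (C t * X ^ (n % p)) := by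
        conv_lhs => rw [← Nat.mod_add_div n p]
        rw [pow_add, ← pow_mul, mul_comm (n / p) p]
        ring
      rw [h2]
      apply hM2
      apply hM
      rw [Finset.mem_image]
      exact ⟨(t, n % p), by simp [ht, Nat.mod_lt _ (show 0 < p by omega)], rfl⟩) (by
      intro a b hb
      rw [hN] at hb ⊢
      have h2 : C (frobenius B p a * b) * X ^ n = frobenius B[X] p (C a) * (C b * X ^ n) := by
        rw [frobenius_def, frobenius_def, C_mul, C_pow]; ring
      rw [h2]
      exact hM2 _ _ hb)
    rw [← hN, h1]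
    trivial
  rw [eq_top_iff]
  intro f _
  induction f using Polynomial.induction_on' with
  | add g h hg hh => exact M.add_mem (hg trivial) (hh trivial)
  | monomial n b => rw [← C_mul_X_pow_eq_monomial]; exact key b n



end Pool.Agent.V1146.Car
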