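import Mathlib

/-!
A `p`-stable `p`-family of ideals of `k[x][y]` which is not compatible with any surjective
Cartier map.
-/

open Polynomial

namespace Pool.Agent.V1146.Car

universe u

section Defs

variable {k : Type u} [Field k]

/-- the condition on `f` at the exponent `e` -/
def Cond (p : ℕ) (a : ℕ → k) (e : ℕ) (f : k[X][X]) : Prop :=
  ∀ i j : ℕ, ∃ n : ℕ, (X - C (a i)) ^ n ∣ f.coeff j ∧ p ^ e * (p ^ i + 1) ≤ p ^ (2 * i) * (n + j)

variable (p : ℕ) (a : ℕ → k)

lemma big {p : ℕ} (hp : 0 < p) (T i j : ℕ) : T ≤ p ^ i * (T + j) :=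
  (Nat.le_add_right _ _).trans (Nat.le_mul_of_pos_left _ (Nat.pow_pos hp))

/-- the ideals `b_e` -/
def bfam (hp : 0 < p) (e : ℕ) : Ideal k[X][X] where
  carrier := {f | Cond p a e f}
  zero_mem' := by
    intro i j
    refine ⟨p ^ e * (p ^ i + 1), by rw [coeff_zero]; exact dvd_zero _, ?_⟩
    exact big hp _ _ _
  add_mem' := by
    intro f g hf hg i j
    obtain ⟨n, hn, hn'⟩ := hf i j
    obtain ⟨m, hm, hm'⟩ := hg i j
    rcases le_total n m with h | h
    · refine ⟨n, ?_, hn'⟩
      rw [coeff_add]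
      exact dvd_add hn ((pow_dvd_pow _ h).trans hm)
    · refine ⟨m, ?_, hm'⟩
      rw [coeff_add]
      exact dvd_add ((pow_dvd_pow _ h).trans hn) hm
  smul_mem' := by
    intro c f hf i j
    obtain ⟨N, hN⟩ : ∃ N : ℕ, ∀ l ≤ j, (X - C (a i)) ^ N ∣ f.coeff l ∧
        p ^ e * (p ^ i + 1) ≤ p ^ (2 * i) * (N + j) := by
      -- the minimum of the exponents
      have : ∀ M : ℕ, M ≤ j → ∃ N : ℕ, (∀ l ≤ M, (X - C (a i)) ^ N ∣ f.coeff l) ∧
          p ^ e * (p ^ i + 1) ≤ p ^ (2 * i) * (N + j) := by
        intro M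
        induction M with
        | zero =>
          intro _
          obtain ⟨n, hn, hn'⟩ := hf i 0
          refine ⟨n, ?_, hn'.trans (Nat.mul_le_mul_left _ (by omega))⟩
          intro l hl
          have : l = 0 := by omega
          subst this
          exact hn
        | succ M ih =>
          intro hM
          obtain ⟨N, hN, hN'⟩ := ih (by omega)
          obtain ⟨n, hn, hn'⟩ := hf i (M + 1)
          rcases le_total n N with h | h
          · refine ⟨n, ?_, hn'.trans (Nat.mul_le_mul_left _ (by omega))⟩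
            intro l hl
            rcases Nat.lt_or_ge l (M + 1) with hl' | hl'
            · exact (pow_dvd_pow _ h).trans (hN l (by omega))
            · have : l = M + 1 := by omega
              subst this
              exact hn
          · refine ⟨N, ?_, hN'⟩
            intro l hl
            rcases Nat.lt_or_ge l (M + 1) with hl' | hl'
            · exact hN l (by omega)
            · have : l = M + 1 := by omega
              subst this
              exact (pow_dvd_pow _ h).trans hn
      obtain ⟨N, hN, hN'⟩ := this j le_rfl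
      exact ⟨N, fun l hl => ⟨hN l hl, hN'⟩⟩
    refine ⟨N, ?_, (hN 0 (Nat.zero_le _)).2⟩
    rw [smul_eq_mul, coeff_mul]
    apply Finset.dvd_sum
    rintro ⟨u, v⟩ huv
    have : u + v = j := Finset.HasAntidiagonal.mem_antidiagonal.mp huv
    exact Dvd.dvd.mul_left (hN v (by omega)).1 _

lemma mem_bfam (hp : 0 < p) (e : ℕ) (f : k[X][X]) : f ∈ bfam p a hp e ↔ Cond p a e f := Iff.rfl

end Defs

section Stable

variable {k : Type u} [Field k] (p : ℕ) [Fact p.Prime] [CharP k p] (a : ℕ → k)

lemma coeff_pow_char (f : k[X][X]) (n j : ℕ) :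
    (f ^ p ^ n).coeff (p ^ n * j) = (f.coeff j) ^ p ^ n := by
  rw [← map_iterateFrobenius_expand p f n, coeff_map,
    coeff_expand_mul' (Nat.pow_pos (Nat.Prime.pos Fact.out)), iterateFrobenius_def]

lemma coeff_pow_char_not (f : k[X][X]) (n j : ℕ) (h : ¬ p ^ n ∣ j) :
    (f ^ p ^ n).coeff j = 0 := by
  rw [← map_iterateFrobenius_expand p f n, coeff_map,
    coeff_expand (Nat.pow_pos (Nat.Prime.pos Fact.out)), if_neg h, map_zero]

lemma cond_pow (e n : ℕ) (f : k[X][X]) : Cond p a (e + n) (f ^ p ^ n) ↔ Cond p a e f := by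
  have hp : 0 < p := Nat.Prime.pos Fact.out
  have hq : 0 < p ^ n := Nat.pow_pos hp
  constructor
  · intro h i j
    obtain ⟨m, hm, hm'⟩ := h i (p ^ n * j)
    rw [coeff_pow_char] at hm
    by_cases h0 : f.coeff j = 0
    · refine ⟨p ^ e * (p ^ i + 1), by rw [h0]; exact dvd_zero _, ?_⟩
      exact big hp _ _ _
    · refine ⟨(f.coeff j).rootMultiplicity (a i), pow_rootMultiplicity_dvd _ _, ?_⟩
      have h1 : m ≤ p ^ n * (f.coeff j).rootMultiplicity (a i) := by
        have h2 := (le_rootMultiplicity_iff (pow_ne_zero (p ^ n) h0)).mpr hm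
        have h3 : ((f.coeff j) ^ p ^ n).rootMultiplicity (a i) =
            p ^ n * (f.coeff j).rootMultiplicity (a i) := by
          clear hm hm' h2
          induction p ^ n with
          | zero => simp
          | succ N ih =>
            rw [pow_succ, rootMultiplicity_mul (mul_ne_zero (pow_ne_zero _ h0) h0), ih]
            ring
        rwa [h3] at h2
      have h4 : p ^ n * (p ^ e * (p ^ i + 1)) ≤
          p ^ n * (p ^ (2 * i) * ((f.coeff j).rootMultiplicity (a i) + j)) := by
        calc p ^ n * (p ^ e * (p ^ i + 1)) = p ^ (e + n) * (p ^ i + 1) := by ring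
          _ ≤ p ^ (2 * i) * (m + p ^ n * j) := hm'
          _ ≤ p ^ (2 * i) * (p ^ n * (f.coeff j).rootMultiplicity (a i) + p ^ n * j) :=
            Nat.mul_le_mul_left _ (by omega)
          _ = _ := by ring
      exact Nat.le_of_mul_le_mul_left h4 hq
  · intro h i j
    by_cases hj : p ^ n ∣ j
    · obtain ⟨j, rfl⟩ := hj
      obtain ⟨m, hm, hm'⟩ := h i j
      refine ⟨p ^ n * m, ?_, ?_⟩
      · rw [coeff_pow_char, mul_comm, pow_mul]
        exact pow_dvd_pow_of_dvd hm _
      · calc p ^ (e + n) * (p ^ i + 1) = p ^ n * (p ^ e * (p ^ i + 1)) := by ring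
          _ ≤ p ^ n * (p ^ (2 * i) * (m + j)) := Nat.mul_le_mul_left _ hm'
          _ = _ := by ring
    · refine ⟨p ^ (e + n) * (p ^ i + 1), by
        rw [coeff_pow_char_not p f n j hj]; exact dvd_zero _, ?_⟩
      exact big hp _ _ _

end Stable

end Pool.Agent.V1146.Car
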