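import Pool.Agent.V1146.Car.Fam

/-!
The family is not compatible with a surjective Cartier map.
-/

open Polynomial

namespace Pool.Agent.V1146.Car

universe u

/-- `φ` is an element of `Hom_R(F^e_* R, R)`: an additive map with `φ (r ^ (p ^ e) * s) = r * φ s` -/
def IsCartier {R : Type u} [CommRing R] (p e : ℕ) (φ : R →+ R) : Prop :=
  ∀ r s : R, φ (r ^ p ^ e * s) = r * φ s

section Main

variable {k : Type u} [Field k] (p : ℕ) [Fact p.Prime] [CharP k p] (a : ℕ → k)
  (ha : Function.Injective a) (hp : 0 < p)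
  (d : ℕ) (hd : 1 ≤ d) (φ : k[X][X] →+ k[X][X]) (hφ : IsCartier p d φ)
  (hb : ∀ e : ℕ, ∀ f ∈ bfam p a hp (e + d), φ f ∈ bfam p a hp e)

include ha hφ hb

/-- the product of the `(X - a_i) ^ M` for `i < N` -/
noncomputable def HH (a : ℕ → k) (N M : ℕ) : k[X] := ∏ i ∈ Finset.range N, (X - C (a i)) ^ M

omit [Fact p.Prime] [CharP k p] ha hφ hb in
lemma HH_ne (N M : ℕ) : HH a N M ≠ 0 :=
  Finset.prod_ne_zero_iff.mpr fun i _ => pow_ne_zero _ (X_sub_C_ne_zero _)

omit [Fact p.Prime] [CharP k p] ha hφ hb in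
lemma HH_dvd (N M i : ℕ) (hi : i < N) : (X - C (a i)) ^ M ∣ HH a N M :=
  Finset.dvd_prod_of_mem _ (Finset.mem_range.mpr hi)

omit [Fact p.Prime] [CharP k p] hφ hb in
lemma HH_not_dvd (N M i : ℕ) (hi : N ≤ i) : ¬ (X - C (a i)) ∣ HH a N M := by
  intro h
  have hpr : Prime (X - C (a i)) := prime_X_sub_C _
  obtain ⟨j, hj, hj'⟩ := (hpr.dvd_finset_prod_iff _).mp h
  have h1 := hpr.dvd_of_dvd_pow hj'
  rw [dvd_iff_isRoot, IsRoot.def, eval_sub, eval_X, eval_C, sub_eq_zero] at h1
  have := ha h1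
  rw [Finset.mem_range] at hj
  omega

omit ha in
lemma stepA (f : k[X][X]) (ha : Function.Injective a) : (φ (X * f)).coeff 0 = 0 := by
  have hq : 0 < p ^ d := Nat.pow_pos hp
  have h2p : 2 ≤ p := Nat.Prime.two_le Fact.out
  obtain ⟨H, hH⟩ : ∃ H, H = HH a (d + 2) (2 * p ^ d) := ⟨_, rfl⟩
  have h1 : (C H) ^ p ^ d * (X * f) ∈ bfam p a hp (0 + d) := by
    intro i j
    rcases j with _ | j
    · refine ⟨p ^ (0 + d) * (p ^ i + 1), ?_, big hp _ _ _⟩
      rw [← C_pow, coeff_C_mul, mul_comm X f, coeff_mul_X_zero, mul_zero]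
      exact dvd_zero _
    · by_cases hi : i < d + 2
      · refine ⟨2 * p ^ d, ?_, ?_⟩
        · rw [← C_pow, coeff_C_mul]
          apply Dvd.dvd.mul_right
          rw [hH]
          exact (HH_dvd a _ _ _ hi).trans (dvd_pow_self _ hq.ne')
        · have h3 : p ^ i + 1 ≤ p ^ (2 * i) * 2 := by
            have h4 : p ^ i ≤ p ^ (2 * i) := Nat.pow_le_pow_right hp (by omega)
            have h5 : 1 ≤ p ^ (2 * i) := Nat.one_le_pow _ _ hp
            omega
          calc p ^ (0 + d) * (p ^ i + 1) ≤ p ^ (0 + d) * (p ^ (2 * i) * 2) :=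
                Nat.mul_le_mul_left _ h3
            _ = p ^ (2 * i) * (2 * p ^ d) := by rw [zero_add]; ring
            _ ≤ _ := Nat.mul_le_mul_left _ (by omega)
      · refine ⟨0, by rw [pow_zero]; exact one_dvd _, ?_⟩
        have h3 : p ^ i + 1 ≤ p ^ (i + 1) := by
          have h5 : 1 ≤ p ^ i := Nat.one_le_pow _ _ hp
          rw [pow_succ]
          nlinarith
        calc p ^ (0 + d) * (p ^ i + 1) ≤ p ^ (0 + d) * p ^ (i + 1) := Nat.mul_le_mul_left _ h3
          _ = p ^ (0 + d + (i + 1)) := by rw [← pow_add]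
          _ ≤ p ^ (2 * i) := Nat.pow_le_pow_right hp (by omega)
          _ ≤ _ := Nat.le_mul_of_pos_right _ (by omega)
  have h2 := hb 0 _ h1
  rw [hφ] at h2
  have h3 : ∀ i : ℕ, (H * (φ (X * f)).coeff 0).IsRoot (a i) := by
    intro i
    obtain ⟨n, hn, hn'⟩ := h2 i 0
    rw [coeff_C_mul] at hn
    rw [← dvd_iff_isRoot]
    have h4 : n ≠ 0 := by
      rintro rfl
      have h5 : 0 < p ^ 0 * (p ^ i + 1) := by positivity
      omega
    exact (dvd_pow_self _ h4).trans hn
  have h4 : H * (φ (X * f)).coeff 0 = 0 := by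
    by_contra h0
    have h5 : Set.Finite {x | (H * (φ (X * f)).coeff 0).IsRoot x} := finite_setOfPred_isRoot h0
    have h6 : Set.Finite (Set.range a) := h5.subset (by rintro _ ⟨i, rfl⟩; exact h3 i)
    exact Set.infinite_range_of_injective ha h6
  exact (mul_eq_zero.mp h4).resolve_left (by rw [hH]; exact HH_ne a _ _)

include hd in
lemma stepB (i : ℕ) (hi : d ≤ i) (s : k[X][X]) (hs : (s.coeff 0).eval (a i) = 0) :
    ((φ s).coeff 0).eval (a i) = 0 := by
  have hq : 0 < p ^ d := Nat.pow_pos hp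
  have h2p : 2 ≤ p := Nat.Prime.two_le Fact.out
  obtain ⟨H, hH⟩ : ∃ H, H = HH a i (2 * p ^ (i + d)) := ⟨_, rfl⟩
  have h1 : (C H * X) ^ p ^ d * s ∈ bfam p a hp (i + d) := by
    intro l j
    have hcoe : ((C H * X) ^ p ^ d * s).coeff j =
        if p ^ d ≤ j then H ^ p ^ d * s.coeff (j - p ^ d) else 0 := by
      rw [mul_pow, ← C_pow, mul_assoc, coeff_C_mul, coeff_X_pow_mul']
      split_ifs <;> simp
    by_cases hj : p ^ d ≤ j
    · rw [hcoe, if_pos hj]
      obtain ⟨m, rfl⟩ := Nat.exists_eq_add_of_le hj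
      rw [Nat.add_sub_cancel_left]
      rcases lt_trichotomy l i with hl | hl | hl
      · refine ⟨2 * p ^ (i + d), ?_, ?_⟩
        · apply Dvd.dvd.mul_right
          rw [hH]
          exact (HH_dvd a _ _ _ hl).trans (dvd_pow_self _ hq.ne')
        · have h3 : p ^ l + 1 ≤ p ^ (2 * l) * 2 := by
            have h4 : p ^ l ≤ p ^ (2 * l) := Nat.pow_le_pow_right hp (by omega)
            have h5 : 1 ≤ p ^ (2 * l) := Nat.one_le_pow _ _ hp
            omega
          calc p ^ (i + d) * (p ^ l + 1) ≤ p ^ (i + d) * (p ^ (2 * l) * 2) :=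
                Nat.mul_le_mul_left _ h3
            _ = p ^ (2 * l) * (2 * p ^ (i + d)) := by ring
            _ ≤ _ := Nat.mul_le_mul_left _ (by omega)
      · subst hl
        have h3 : p ^ (l + d) * (p ^ l + 1) ≤ p ^ (2 * l) * (1 + p ^ d) := by
          have h4 : p ^ (l + d) ≤ p ^ (2 * l) := Nat.pow_le_pow_right hp (by omega)
          calc p ^ (l + d) * (p ^ l + 1) = p ^ (2 * l) * p ^ d + p ^ (l + d) := by ring
            _ ≤ p ^ (2 * l) * p ^ d + p ^ (2 * l) := Nat.add_le_add_left h4 _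
            _ = _ := by ring
        rcases m with _ | m
        · refine ⟨1, ?_, ?_⟩
          · rw [pow_one]
            apply Dvd.dvd.mul_left
            rw [dvd_iff_isRoot]
            exact hs
          · exact h3.trans (Nat.mul_le_mul_left _ (by omega))
        · refine ⟨0, by rw [pow_zero]; exact one_dvd _, ?_⟩
          exact h3.trans (Nat.mul_le_mul_left _ (by omega))
      · refine ⟨0, by rw [pow_zero]; exact one_dvd _, ?_⟩
        have h3 : p ^ i * (p ^ l + 1) ≤ p ^ (2 * l) := by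
          calc p ^ i * (p ^ l + 1) ≤ p ^ (l - 1) * (p ^ l + 1) :=
                Nat.mul_le_mul_right _ (Nat.pow_le_pow_right hp (by omega))
            _ ≤ p ^ (l - 1) * (p ^ l + p ^ l) := by
                apply Nat.mul_le_mul_left
                have : 1 ≤ p ^ l := Nat.one_le_pow _ _ hp
                omega
            _ ≤ p ^ (l - 1) * (p * p ^ l) := by
                apply Nat.mul_le_mul_left
                rw [← two_mul]
                exact Nat.mul_le_mul_right _ h2p
            _ = p ^ (2 * l) := by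
                rw [← pow_succ', ← pow_add]
                congr 1
                omega
        calc p ^ (i + d) * (p ^ l + 1) = p ^ d * (p ^ i * (p ^ l + 1)) := by ring
          _ ≤ p ^ d * p ^ (2 * l) := Nat.mul_le_mul_left _ h3
          _ = p ^ (2 * l) * p ^ d := by ring
          _ ≤ _ := Nat.mul_le_mul_left _ (by omega)
    · refine ⟨p ^ (i + d) * (p ^ l + 1), ?_, big hp _ _ _⟩
      rw [hcoe, if_neg hj]
      exact dvd_zero _
  have h2 := hb i _ h1
  rw [hφ] at h2
  obtain ⟨n, hn, hn'⟩ := h2 i 1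
  rw [mul_assoc, coeff_C_mul, show (1 : ℕ) = 0 + 1 from rfl, coeff_X_mul] at hn
  have h4 : n ≠ 0 := by
    rintro rfl
    have h5 : p ^ i * (p ^ i + 1) = p ^ (2 * i) * (0 + 1) + p ^ i := by ring
    have h6 : 0 < p ^ i := Nat.pow_pos hp
    omega
  have h5 : (X - C (a i)) ∣ H * (φ s).coeff 0 := (dvd_pow_self _ h4).trans hn
  have hpr : Prime (X - C (a i)) := prime_X_sub_C _
  rcases hpr.dvd_or_dvd h5 with h6 | h6
  · exact absurd h6 (by rw [hH]; exact HH_not_dvd a ha _ _ _ le_rfl)
  · rwa [dvd_iff_isRoot] at h6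

include hd in
theorem no_surj [PerfectRing k p] (hsurj : Function.Surjective φ) : False := by
  have hq : 0 < p ^ d := Nat.pow_pos hp
  have h2p : 2 ≤ p := Nat.Prime.two_le Fact.out
  have hq2 : 2 ≤ p ^ d := by
    calc 2 ≤ p := h2p
      _ = p ^ 1 := (pow_one p).symm
      _ ≤ p ^ d := Nat.pow_le_pow_right hp hd
  -- the induced map on `k[x]`
  have key : ∀ f : k[X], ((φ (C f)).coeff 0) ^ p ^ d = f * ((φ 1).coeff 0) ^ p ^ d := by
    intro f
    have h1 : ∀ i, d ≤ i → ((((φ (C f)).coeff 0) ^ p ^ d - f * ((φ 1).coeff 0) ^ p ^ d)).IsRoot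
        (a i) := by
      intro i hi
      obtain ⟨c, hc⟩ : ∃ c : k, c ^ p ^ d = f.eval (a i) := by
        have h2 : Function.Surjective (iterateFrobenius k p d) :=
          (bijective_iterateFrobenius k p d).2
        obtain ⟨c, hc⟩ := h2 (f.eval (a i))
        exact ⟨c, by rw [← hc, iterateFrobenius_def]⟩
      have h2 := stepB p a ha hp d hd φ hφ hb i hi (C (f - C (f.eval (a i)))) (by
        rw [coeff_C_zero, eval_sub, eval_C, sub_self])
      rw [C_sub, map_sub, coeff_sub, eval_sub, sub_eq_zero] at h2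
      have h3 : (C (C (f.eval (a i))) : k[X][X]) = (C (C c)) ^ p ^ d * 1 := by
        rw [← hc, C_pow, C_pow, mul_one]
      rw [h3, hφ, coeff_C_mul, eval_mul, eval_C] at h2
      rw [IsRoot.def, eval_sub, eval_pow, eval_mul, eval_pow, h2, mul_pow, hc, sub_self]
    by_contra h0
    have h0' : ((φ (C f)).coeff 0) ^ p ^ d - f * ((φ 1).coeff 0) ^ p ^ d ≠ 0 := sub_ne_zero.mpr h0
    have h5 : Set.Finite {x | (((φ (C f)).coeff 0) ^ p ^ d -
        f * ((φ 1).coeff 0) ^ p ^ d).IsRoot x} := finite_setOfPred_isRoot h0'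
    have h6 : Set.Finite (Set.range fun i => a (d + i)) :=
      h5.subset (by rintro _ ⟨i, rfl⟩; exact h1 _ (by omega))
    refine Set.infinite_range_of_injective ?_ h6
    intro i j hij
    have := ha hij
    omega
  have hu : (φ 1).coeff 0 = 0 := by
    by_contra hu
    have h1 := congrArg natDegree (key X)
    rw [natDegree_pow, natDegree_mul X_ne_zero (pow_ne_zero _ hu), natDegree_X,
      natDegree_pow] at h1
    have h2 : p ^ d ∣ 1 := by
      refine (Nat.dvd_add_left (Dvd.intro _ rfl : p ^ d ∣ p ^ d * ((φ 1).coeff 0).natDegree)).mp ?_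
      rw [← h1]
      exact Dvd.intro _ rfl
    have := Nat.le_of_dvd one_pos h2
    omega
  have hall : ∀ f : k[X][X], (φ f).coeff 0 = 0 := by
    intro f
    have h1 : f = X * f.divX + C (f.coeff 0) := (X_mul_divX_add f).symm
    rw [h1, map_add, coeff_add, stepA p a hp d φ hφ hb _ ha, zero_add]
    have h2 := key (f.coeff 0)
    rw [hu, zero_pow hq.ne', mul_zero] at h2
    exact pow_eq_zero_iff hq.ne' |>.mp h2
  obtain ⟨f, hf⟩ := hsurj 1
  have h1 := hall f
  rw [hf, coeff_one_zero] at h1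
  exact one_ne_zero h1

end Main

end Pool.Agent.V1146.Car
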